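import Pool.Agent.S91X.MatNorm
import Pool.Agent.S91X.Embed
import Pool.Agent.S91X.Final

/-!
For `0 < p < q < 2` the Schatten class `S_q(E)` of every finite-dimensional complex Hilbert space
`E` embeds isometrically and complex-linearly into the Schatten class `S_p(H)` of every
infinite-dimensional complex Hilbert space `H`.
-/

namespace Pool.Agent.Results.MP_0c1246_an.AllMatrices

open Pool.Agent.S50X Pool.Agent.S91X

/-- The sum of the `p`-th powers of the singular values (approximation numbers) of `T`, to the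
power `1 / p`. -/
noncomputable def schattenNorm {H K : Type*} [NormedAddCommGroup H] [InnerProductSpace ℂ H]
    [NormedAddCommGroup K] [InnerProductSpace ℂ K] (p : ℝ) (T : H →L[ℂ] K) : ℝ :=
  (∑' k : ℕ, approxNum T k ^ p) ^ (1 / p)

/-- `T` belongs to the Schatten class with exponent `p`: the `p`-th powers of its singular values
(approximation numbers) are summable. -/
def InSchatten {H K : Type*} [NormedAddCommGroup H] [InnerProductSpace ℂ H]
    [NormedAddCommGroup K] [InnerProductSpace ℂ K] (p : ℝ) (T : H →L[ℂ] K) : Prop :=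
  Summable fun k : ℕ => approxNum T k ^ p

/-- `S_q(E)` embeds isometrically and complex-linearly into `S_p(H)`, for a finite-dimensional
space `E` (where every operator is in `S_q(E)`). -/
def EmbedsInSchatten (q p : ℝ) (E H : Type*) [NormedAddCommGroup E] [InnerProductSpace ℂ E]
    [NormedAddCommGroup H] [InnerProductSpace ℂ H] : Prop :=
  ∃ T : (E →L[ℂ] E) → (H →L[ℂ] H), IsLinearMap ℂ T ∧
    ∀ x, InSchatten q x ∧ InSchatten p (T x) ∧ schattenNorm p (T x) = schattenNorm q x

theorem result (p q : ℝ) (hp : 0 < p) (hpq : p < q) (hq : q < 2)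
    (E : Type*) [NormedAddCommGroup E] [InnerProductSpace ℂ E] [FiniteDimensional ℂ E]
    (H : Type*) [NormedAddCommGroup H] [InnerProductSpace ℂ H] [CompleteSpace H]
    (hH : ¬ FiniteDimensional ℂ H) : EmbedsInSchatten q p E H := by
  have hq0 : 0 < q := hp.trans hpq
  have hx : ∀ x : E →L[ℂ] E, HasSum (fun k : ℕ => approxNum x k ^ q)
      (∑ i, eig (cm (stdOrthonormalBasis ℂ E) x) i ^ (q / 2)) := fun x => hasSum_cm hq0 _ x
  rcases Nat.eq_zero_or_pos (Module.finrank ℂ E) with h0 | hn
  · -- the trivial case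
    refine ⟨fun _ => 0, ⟨fun _ _ => by simp, fun _ _ => by simp⟩, fun x => ?_⟩
    have hS : ∑ i, eig (cm (stdOrthonormalBasis ℂ E) x) i ^ (q / 2) = 0 := by
      have : IsEmpty (Fin (Module.finrank ℂ E)) := by rw [h0]; infer_instance
      exact Finset.sum_eq_zero fun i _ => (IsEmpty.false i).elim
    have h1 : ∀ k : ℕ, approxNum (0 : H →L[ℂ] H) k = 0 := fun k =>
      le_antisymm (by
        have := approxNum_le (0 : H →L[ℂ] H) 0 (k := k) (by simp)
        simpa using this) (approxNum_nonneg _ _)
    have h2 : InSchatten p (0 : H →L[ℂ] H) := by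
      unfold InSchatten
      simp [h1, Real.zero_rpow hp.ne']
    refine ⟨(hx x).summable, h2, ?_⟩
    unfold schattenNorm
    rw [(hx x).tsum_eq, hS]
    simp [h1, Real.zero_rpow hp.ne', Real.zero_rpow (inv_ne_zero hp.ne'),
      Real.zero_rpow (inv_ne_zero hq0.ne')]
  · have : NeZero (Module.finrank ℂ E) := ⟨hn.ne'⟩
    obtain ⟨C, hC, hR⟩ := rep_schatten (n := Module.finrank ℂ E) (a := q / 2) hp
      (by linarith) (by linarith)
    obtain ⟨T, hT⟩ := exists_embedding hp hR H hH
    set b := stdOrthonormalBasis ℂ E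
    set l : ℝ := C ^ (-(2 / p)) with hl
    have hl0 : 0 < l := Real.rpow_pos_of_pos hC _
    have hCl : C * l ^ (p / 2) = 1 := by
      rw [hl, ← Real.rpow_mul hC.le]
      have : -(2 / p) * (p / 2) = -1 := by field_simp
      rw [this, Real.rpow_neg_one, mul_inv_cancel₀ hC.ne']
    have hS0 : ∀ x, 0 ≤ ∑ i, eig (cm b x) i ^ (q / 2) := fun x =>
      Finset.sum_nonneg fun i _ => Real.rpow_nonneg (eig_nonneg _ _) _
    have hTx : ∀ x : E →L[ℂ] E, HasSum (fun k : ℕ => approxNum (T (√l • cm b x)) k ^ p)
        ((∑ i, eig (cm b x) i ^ (q / 2)) ^ (p / q)) := fun x => by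
      have h1 := hT (√l • cm b x)
      have h2 : C * (∑ i, eig (√l • cm b x) i ^ (q / 2)) ^ (p / 2 / (q / 2)) =
          (∑ i, eig (cm b x) i ^ (q / 2)) ^ (p / q) := by
        rw [eig_smul_sum (cm b x) hl0.le (fun t => t ^ (q / 2))]
        have h3 : ∑ i, (l * eig (cm b x) i) ^ (q / 2) =
            l ^ (q / 2) * ∑ i, eig (cm b x) i ^ (q / 2) := by
          rw [Finset.mul_sum]
          exact Finset.sum_congr rfl fun i _ => Real.mul_rpow hl0.le (eig_nonneg _ _)
        rw [h3, Real.mul_rpow (Real.rpow_nonneg hl0.le _) (hS0 x), ← Real.rpow_mul hl0.le,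
          ← mul_assoc]
        have h4 : q / 2 * (p / 2 / (q / 2)) = p / 2 := by field_simp
        have h5 : p / 2 / (q / 2) = p / q := by field_simp
        rw [h4, hCl, one_mul, h5]
      rwa [h2] at h1
    refine ⟨fun x => T (√l • cm b x), ⟨fun x y => by rw [map_add, smul_add, map_add],
      fun r x => ?_⟩, fun x => ⟨(hx x).summable, (hTx x).summable, ?_⟩⟩
    · have h1 : √l • cm b (r • x) = r • (√l • cm b x) := by
        rw [(cm b).map_smul, smul_comm]
      rw [h1]
      exact T.map_smul r _
    · unfold schattenNorm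
      rw [(hx x).tsum_eq, (hTx x).tsum_eq, ← Real.rpow_mul (hS0 x)]
      congr 1
      field_simp

end Pool.Agent.Results.MP_0c1246_an.AllMatrices
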